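import Pool.Agent.helper7.AL.Spec

set_option autoImplicit false

namespace Pool.Agent.AL

open Finset Pool.Agent.helper85.FC Pool.Agent.helper11.MK

theorem GP2_bd (a b D z z' : ℤ) (ha : 0 < a) (hb : 0 < b) (hz : |z| < D) (hz' : |z'| < D) :
    |a * z - b * z'| < D * (a + b) := by
  rw [abs_lt] at hz hz' ⊢
  obtain ⟨h1, h2⟩ := hz
  obtain ⟨h3, h4⟩ := hz'
  have e1 : a * z < a * D := (mul_lt_mul_iff_right₀ ha).2 h2
  have e2 : a * (-D) < a * z := (mul_lt_mul_iff_right₀ ha).2 h1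
  have e3 : b * z' < b * D := (mul_lt_mul_iff_right₀ hb).2 h4
  have e4 : b * (-D) < b * z' := (mul_lt_mul_iff_right₀ hb).2 h3
  constructor <;> nlinarith

theorem GP2_key (hSOL : SOL_stmt) (hLCA : LCA_stmt) (hGP1 : GP1_stmt) (k : ℕ) (X Y : Finset ℤ) (u₀ : ℤ)
    (hk : 1 ≤ k) (hB : BlcK k) (hX : #X = k) (hY : #Y = k)
    (hα : ∀ x ∈ X, (((4 * k).factorial : ℕ) : ℤ) ∣ x) (hβ : ∀ y ∈ Y, (((4 * k).factorial : ℕ) : ℤ) ∣ y - u₀)
    (hbad : ∀ x ∈ X, ∀ y ∈ Y, Bad (y - x)) (g : ℤ)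
    (hg1 : IsCoprime g (((4 * k).factorial : ℕ) : ℤ)) (hg2 : IsCoprime (g + u₀) (((4 * k).factorial : ℕ) : ℤ))
    (D : ℕ) (hD : ∀ z ∈ X ∪ Y, |z| < (D : ℤ)) (a b : ℕ) (ha : 0 < a) (hb : 0 < b) (hab : Nat.Coprime a b)
    (c₀ : ℤ) (h1 : (((4 * k).factorial : ℕ) : ℤ) ∣ c₀ - (a * g - b * g))
    (h2 : ∀ l ∈ (a * b).primeFactors, 4 * k < l → l ∣ b → ∀ z ∈ X ∪ Y, ¬ (l : ℤ) ∣ c₀ - (-(a * z)))
    (h3 : ∀ l ∈ (a * b).primeFactors, 4 * k < l → ¬ l ∣ b → ∀ z ∈ X ∪ Y, ¬ (l : ℤ) ∣ c₀ - b * z)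
    (h4 : (D : ℤ) * (a + b) ≤ |c₀|) :
    ∃ c : ℤ, c₀ - D * (a + b) < c ∧ c < c₀ + D * (a + b) ∧ TrueCase a b c := by
  obtain ⟨h, h', hh, hh', hc⟩ := hSOL a b (4 * k).factorial g g c₀ hab h1
  have haz : (0 : ℤ) < a := by exact_mod_cast ha
  have hbz : (0 : ℤ) < b := by exact_mod_cast hb
  have hcop1 : IsCoprime h (((4 * k).factorial : ℕ) : ℤ) := by
    obtain ⟨t, ht⟩ := hh
    have e : h = g + (((4 * k).factorial : ℕ) : ℤ) * t := by linarith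
    rw [e]
    exact hg1.add_mul_left_left t
  have hcop2 : IsCoprime (h + u₀) (((4 * k).factorial : ℕ) : ℤ) := by
    obtain ⟨t, ht⟩ := hh
    have e : h + u₀ = (g + u₀) + (((4 * k).factorial : ℕ) : ℤ) * t := by linarith
    rw [e]
    exact hg2.add_mul_left_left t
  have hhh : (((4 * k).factorial : ℕ) : ℤ) ∣ h' - h := by
    have e : h' - h = (h' - g) - (h - g) := by ring
    rw [e]
    exact dvd_sub hh' hh
  have hmem : ∀ l : ℕ, l.Prime → l ∣ a * b → l ∈ (a * b).primeFactors := by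
    intro l hl hd
    exact Nat.mem_primeFactors.2 ⟨hl, hd, (Nat.mul_pos ha hb).ne'⟩
  have hadm := hLCA k a b X Y u₀ h h' hk hX hY hα hβ hcop1 hcop2 hhh
    (by
      intro l hl hlk hlb z hz hdv
      refine h2 l (hmem l hl (hlb.mul_left a)) hlk hlb z hz ?_
      have e : c₀ - (-(a * z)) = a * (h + z) - b * h' := by rw [← hc]; ring
      rw [e]
      exact dvd_sub (hdv.mul_left _) ((Int.natCast_dvd_natCast.2 hlb).mul_right _))
    (by
      intro l hl hlk hla z hz hdv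
      have hlb : ¬ l ∣ b := fun hlb => by
        have := Nat.dvd_gcd hla hlb
        rw [hab] at this
        exact hl.one_lt.ne' (Nat.dvd_one.1 this)
      refine h3 l (hmem l hl (hla.mul_right b)) hlk hlb z hz ?_
      have e : c₀ - b * z = a * h - b * (h' + z) := by rw [← hc]; ring
      rw [e]
      exact dvd_sub ((Int.natCast_dvd_natCast.2 hla).mul_right _) (hdv.mul_left _))
  obtain ⟨z, hz, z', hz', ht⟩ := hGP1 k a b X Y X Y h h' hB ha hb hab hX hY hX hY hbad hbad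
    (by
      intro z hz z' hz' he
      have hb1 := GP2_bd a b D z z' haz hbz (hD z hz) (hD z' hz')
      have e : c₀ = -((a : ℤ) * z - b * z') := by rw [← hc]; linarith
      rw [e, abs_neg] at h4
      linarith) hadm
  have hb1 := GP2_bd a b D z z' haz hbz (hD z hz) (hD z' hz')
  rw [abs_lt] at hb1
  have e : (a : ℤ) * (h + z) - b * (h' + z') = c₀ + (a * z - b * z') := by rw [← hc]; ring
  refine ⟨a * (h + z) - b * (h' + z'), ?_, ?_, ht⟩
  · rw [e]; linarith [hb1.1]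
  · rw [e]; linarith [hb1.2]

theorem GP2 (hHST : HST_stmt) (hSOL : SOL_stmt) (hJAC : JAC_stmt) (hLCA : LCA_stmt) (hGP1 : GP1_stmt) :
    GP2_stmt := by
  classical
  intro k X Y u₀ hk hB hX hY hu hα hβ hbad
  obtain ⟨g, hg1, hg2⟩ := hHST (4 * k).factorial u₀ (Nat.factorial_pos _) hu
  obtain ⟨C₁, hC₁⟩ := hJAC (2 * k) (by omega)
  have hkk : 2 * (2 * k) = 4 * k := by ring
  rw [hkk] at hC₁
  obtain ⟨D, hD⟩ : ∃ D : ℕ, ∀ z ∈ X ∪ Y, |z| < (D : ℤ) := by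
    refine ⟨(∑ z ∈ X ∪ Y, z.natAbs) + 1, ?_⟩
    intro z hz
    have h1 : z.natAbs ≤ ∑ z ∈ X ∪ Y, z.natAbs :=
      Finset.single_le_sum (f := fun z : ℤ => z.natAbs) (fun _ _ => Nat.zero_le _) hz
    have h2 : |z| = (z.natAbs : ℤ) := Int.abs_eq_natAbs z
    rw [h2]
    push_cast
    have h3 : (z.natAbs : ℤ) ≤ ((∑ z ∈ X ∪ Y, z.natAbs : ℕ) : ℤ) := by exact_mod_cast h1
    push_cast at h3
    linarith
  refine ⟨2 * C₁ + 5 * D, ?_⟩
  intro a b ha hb hab u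
  have hpos : (0 : ℤ) < (a : ℤ) + b := by
    have : 0 < a + b := by omega
    exact_mod_cast this
  have hD0 : (0 : ℤ) ≤ D := by exact_mod_cast Nat.zero_le D
  have hC0 : (0 : ℤ) ≤ C₁ := by exact_mod_cast Nat.zero_le C₁
  have hcardXY : #(X ∪ Y) ≤ 2 * k := by
    refine (card_union_le X Y).trans ?_
    rw [hX, hY]; omega
  have pick : ∀ v : ℤ, ∃ c₀ : ℤ, v < c₀ ∧ c₀ ≤ v + C₁ * (a + b) ∧
      (((4 * k).factorial : ℕ) : ℤ) ∣ c₀ - (a * g - b * g) ∧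
      (∀ l ∈ (a * b).primeFactors, 4 * k < l → l ∣ b → ∀ z ∈ X ∪ Y, ¬ (l : ℤ) ∣ c₀ - (-(a * z))) ∧
      (∀ l ∈ (a * b).primeFactors, 4 * k < l → ¬ l ∣ b → ∀ z ∈ X ∪ Y, ¬ (l : ℤ) ∣ c₀ - b * z) := by
    intro v
    obtain ⟨c, hc1, hc2, hc3, hc4⟩ := hC₁ (a * b) (a * g - b * g)
      (fun l => if l ∣ b then (X ∪ Y).image (fun z => -(a * z)) else (X ∪ Y).image (fun z => b * z))
      (Nat.mul_pos ha hb)
      (by
        intro l
        by_cases hl : l ∣ b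
        · simp only [hl, if_true]
          exact card_image_le.trans hcardXY
        · simp only [hl, if_false]
          exact card_image_le.trans hcardXY) v
    refine ⟨c, hc1, ?_, hc3, ?_, ?_⟩
    · have h1 : √(((a * b : ℕ)) : ℝ) ≤ (a : ℝ) + b := by
        rw [Real.sqrt_le_iff]
        have ha' : (0 : ℝ) ≤ a := Nat.cast_nonneg a
        have hb' : (0 : ℝ) ≤ b := Nat.cast_nonneg b
        refine ⟨by positivity, ?_⟩
        push_cast
        nlinarith [mul_nonneg ha' hb']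
      have h2 : (C₁ : ℝ) * √(((a * b : ℕ)) : ℝ) ≤ C₁ * ((a : ℝ) + b) :=
        mul_le_mul_of_nonneg_left h1 (Nat.cast_nonneg C₁)
      have h3 : (c : ℝ) ≤ v + C₁ * ((a : ℝ) + b) := hc2.trans (by linarith)
      exact_mod_cast h3
    · intro l hl hlk hlb z hz
      refine hc4 l hl hlk _ ?_
      simp only [hlb, if_true]
      exact mem_image_of_mem _ hz
    · intro l hl hlk hlb z hz
      refine hc4 l hl hlk _ ?_
      simp only [hlb, if_false]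
      exact mem_image_of_mem _ hz
  obtain ⟨c₁, p1, p2, p3, p4, p5⟩ := pick (u + D * (a + b))
  obtain ⟨c₂, q1, q2, q3, q4, q5⟩ := pick (u + (C₁ + 4 * D) * (a + b))
  have hDs : (0 : ℤ) ≤ D * (a + b) := mul_nonneg hD0 hpos.le
  have hCs : (0 : ℤ) ≤ C₁ * (a + b) := mul_nonneg hC0 hpos.le
  have ex2 : ((C₁ : ℤ) + 4 * D) * (a + b) = C₁ * (a + b) + 4 * (D * (a + b)) := by ring
  have ex3 : (((2 * C₁ + 5 * D : ℕ)) : ℤ) * (a + b) = 2 * (C₁ * (a + b)) + 5 * (D * (a + b)) := by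
    push_cast; ring
  rw [ex2] at q1 q2
  by_cases hc : (D : ℤ) * (a + b) ≤ |c₁|
  · obtain ⟨c, e1, e2, e3⟩ := GP2_key hSOL hLCA hGP1 k X Y u₀ hk hB hX hY hα hβ hbad g hg1 hg2 D hD a b ha hb hab
      c₁ p3 p4 p5 hc
    refine ⟨c, ?_, e3⟩
    rw [mem_Ioc, ex3]
    constructor <;> linarith
  · have hc' : (D : ℤ) * (a + b) ≤ |c₂| := by
      by_contra hcc
      rw [not_le, abs_lt] at hc hcc
      linarith [hc.1, hc.2, hcc.1, hcc.2]
    obtain ⟨c, e1, e2, e3⟩ := GP2_key hSOL hLCA hGP1 k X Y u₀ hk hB hX hY hα hβ hbad g hg1 hg2 D hD a b ha hb hab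
      c₂ q3 q4 q5 hc'
    refine ⟨c, ?_, e3⟩
    rw [mem_Ioc, ex3]
    constructor <;> linarith

end Pool.Agent.AL
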